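import Pool.Agent.Helper88.GU.St

/-!
Project GU2 (MP_b1e6de_al), module VA: constants from an infinite residue field.
-/

set_option autoImplicit false

namespace Pool.Agent.Helper99.GU2

open Polynomial

universe u

/-- the residues of bad constants form a finite set -/
theorem bad_finite (R : Type u) [CommRing R] [IsLocalRing R] (B : Type u) [CommRing B]
    [Algebra R B] (Q : Ideal B) (hQ : Q.IsPrime) (g : B[X]) (hg : ∃ j, g.coeff j ∉ Q) :
    {c : IsLocalRing.ResidueField R | ∃ z : R, IsLocalRing.residue R z = c ∧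
      g.eval (algebraMap R B z) ∈ Q}.Finite := by
  have := hQ
  let φ : B →+* B ⧸ Q := Ideal.Quotient.mk Q
  have hp : g.map φ ≠ 0 := by
    obtain ⟨j, hj⟩ := hg
    intro h0
    apply hj
    have h1 : (g.map φ).coeff j = 0 := by rw [h0, coeff_zero]
    rw [coeff_map] at h1
    exact Ideal.Quotient.eq_zero_iff_mem.mp h1
  have hroots : {y : B ⧸ Q | (g.map φ).IsRoot y}.Finite := finite_setOfPred_isRoot hp
  refine (hroots.biUnion (t := fun y => {c : IsLocalRing.ResidueField R | ∃ z : R,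
    IsLocalRing.residue R z = c ∧ φ (algebraMap R B z) = y}) ?_).subset ?_
  · intro y _
    refine Set.Subsingleton.finite ?_
    rintro c ⟨z, rfl, hz⟩ c' ⟨z', rfl, hz'⟩
    by_contra hne
    have hu : IsUnit (z - z') := by
      by_contra hnu
      apply hne
      have h1 : z - z' ∈ IsLocalRing.maximalIdeal R := (IsLocalRing.mem_maximalIdeal _).mpr hnu
      have h2 : IsLocalRing.residue R (z - z') = 0 := Ideal.Quotient.eq_zero_iff_mem.mpr h1
      rw [map_sub] at h2
      exact sub_eq_zero.mp h2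
    have h3 : IsUnit (φ (algebraMap R B (z - z'))) := (hu.map (algebraMap R B)).map φ
    rw [map_sub, map_sub, hz, hz', sub_self] at h3
    exact not_isUnit_zero h3
  · rintro c ⟨z, rfl, hz⟩
    rw [Set.mem_iUnion₂]
    refine ⟨φ (algebraMap R B z), ?_, z, rfl, rfl⟩
    change (g.map φ).eval (φ (algebraMap R B z)) = 0
    rw [eval_map_apply]
    exact Ideal.Quotient.eq_zero_iff_mem.mpr hz

theorem hVA : Pool.Agent.Helper88.GU.StVA.{u} := by
  intro R _ _ hinf B₁ B₂ _ _ _ _ S₁ S₂ hS₁ hS₂ h1 h2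
  have hf1 : (⋃ q ∈ S₁, {c : IsLocalRing.ResidueField R | ∃ z : R,
      IsLocalRing.residue R z = c ∧ q.2.eval (algebraMap R B₁ z) ∈ q.1}).Finite :=
    hS₁.biUnion fun q hq => bad_finite R B₁ q.1 (h1 q hq).1 q.2 (h1 q hq).2.2
  have hf2 : (⋃ q ∈ S₂, {c : IsLocalRing.ResidueField R | ∃ z : R,
      IsLocalRing.residue R z = c ∧ q.2.eval (algebraMap R B₂ z) ∈ q.1}).Finite :=
    hS₂.biUnion fun q hq => bad_finite R B₂ q.1 (h2 q hq).1 q.2 (h2 q hq).2.2
  obtain ⟨c, hc⟩ := (hf1.union hf2).infinite_compl.nonempty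
  obtain ⟨z, rfl⟩ := IsLocalRing.residue_surjective c
  rw [Set.mem_compl_iff, Set.mem_union, not_or] at hc
  refine ⟨z, Submodule.mem_top, ?_, ?_⟩
  · intro q hq hmem
    exact hc.1 (Set.mem_iUnion₂.mpr ⟨q, hq, z, rfl, hmem⟩)
  · intro q hq hmem
    exact hc.2 (Set.mem_iUnion₂.mpr ⟨q, hq, z, rfl, hmem⟩)

end Pool.Agent.Helper99.GU2
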